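import Pool.Agent.Lib.MP_27cd7e_an.FtMain

/-!
A lower bound for the small divisors at a fixed point without small cycles.
-/

set_option autoImplicit false

namespace Pool.Agent.FS.CubicSmall

open Pool.Agent.Lib.MP_27cd7e_an Metric Set Complex Filter Topology

theorem rot_pow (α : ℝ) (k : ℕ) :
    exp (2 * Real.pi * I * α) ^ k = exp (2 * Real.pi * I * ((k * α : ℝ) : ℂ)) := by
  rw [← Complex.exp_nat_mul]
  congr 1
  push_cast
  ring

theorem rot_ne {α : ℝ} (hα : Irrational α) {k : ℕ} (hk : 1 ≤ k) :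
    exp (2 * Real.pi * I * α) ^ k - 1 ≠ 0 := by
  intro h
  have h1 := (rot_bounds (k * α)).1
  rw [← rot_pow, h, norm_zero] at h1
  have h2 : (k : ℝ) * α - round ((k : ℝ) * α) = 0 :=
    abs_eq_zero.1 (le_antisymm (by linarith) (abs_nonneg _))
  exact (hα.natCast_mul (by omega : k ≠ 0)).ne_int _ (sub_eq_zero.1 h2)

/-- The side condition of the bound can be dropped. -/
theorem all_q {α : ℝ} (hα : Irrational α) (h : Bound (exp (2 * Real.pi * I * α))) :
    ∃ C : ℝ, ∀ q : ℕ, 1 ≤ q → Real.exp (-(C * q ^ 3)) ≤ ‖exp (2 * Real.pi * I * α) ^ q - 1‖ := by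
  obtain ⟨C, hC0, hC⟩ := h
  have key : ∀ q : ℕ, 1 ≤ q →
      Real.exp (-((C + 12) * q ^ 3)) ≤ |(q : ℝ) * α - round ((q : ℝ) * α)| := by
    intro q
    induction q using Nat.strong_induction_on with
    | _ q ih =>
      intro hq
      have hq' : (1 : ℝ) ≤ q := by exact_mod_cast hq
      have hq3 : (1 : ℝ) ≤ (q : ℝ) ^ 3 := one_le_pow₀ hq'
      have hq4 : (0 : ℝ) < 64 * (q : ℝ) ^ 4 := by positivity
      by_cases hA : ∀ m : ℕ, 1 ≤ m → m < q →
          1 / (64 * (q : ℝ) ^ 4) ≤ |(m : ℝ) * α - round ((m : ℝ) * α)|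
      · have h1 := hC q hq (rot_ne hα hq) fun m h1 h2 => by
          have h3 := (rot_bounds (m * α)).1
          have h4 := hA m h1 h2
          rw [← rot_pow] at h3
          rw [show 1 / (16 * (q : ℝ) ^ 4) = 4 * (1 / (64 * (q : ℝ) ^ 4)) by field_simp; norm_num]
          linarith
        have h2 := (rot_bounds (q * α)).2
        rw [← rot_pow] at h2
        have h3 := Real.add_one_le_exp (12 * (q : ℝ) ^ 3)
        have h4 : Real.exp (-((C + 12) * q ^ 3)) * Real.exp (12 * (q : ℝ) ^ 3) =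
            Real.exp (-(C * q ^ 3)) := by
          rw [← Real.exp_add]
          congr 1
          ring
        have h5 := Real.exp_pos (-((C + 12) * q ^ 3))
        nlinarith
      push Not at hA
      obtain ⟨m, hm1, hmq, hm⟩ := hA
      have hm' : (1 : ℝ) ≤ m := by exact_mod_cast hm1
      have hmq' : (m : ℝ) ≤ q := by exact_mod_cast hmq.le
      by_cases hB : 1 / (64 * (q : ℝ) ^ 4) ≤ |(q : ℝ) * α - round ((q : ℝ) * α)|
      · refine le_trans ?_ hB
        rw [Real.exp_neg, one_div]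
        refine inv_anti₀ hq4 ?_
        have h1 := Real.quadratic_le_exp_of_nonneg (x := 12 * (q : ℝ) ^ 3) (by positivity)
        have h2 : Real.exp (12 * (q : ℝ) ^ 3) ≤ Real.exp ((C + 12) * q ^ 3) :=
          Real.exp_le_exp.2 (by nlinarith)
        have h3 : (q : ℝ) ^ 4 ≤ (q : ℝ) ^ 6 := pow_le_pow_right₀ hq' (by norm_num)
        nlinarith
      push Not at hB
      set a := round ((m : ℝ) * α)
      set b := round ((q : ℝ) * α)
      have e : (((q : ℤ) * a - (m : ℤ) * b : ℤ) : ℝ) =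
          m * ((q : ℝ) * α - b) - q * ((m : ℝ) * α - a) := by
        push_cast
        ring
      have h1 : |(((q : ℤ) * a - (m : ℤ) * b : ℤ) : ℝ)| < 1 := by
        rw [e]
        refine (abs_sub _ _).trans_lt ?_
        rw [abs_mul, abs_mul, Nat.abs_cast, Nat.abs_cast]
        have h2 : (q : ℝ) * (1 / (64 * (q : ℝ) ^ 4)) ≤ 1 / 64 := by
          rw [mul_one_div, div_le_div_iff₀ hq4 (by norm_num)]
          have : (q : ℝ) ≤ (q : ℝ) ^ 4 := le_self_pow₀ hq' (by norm_num)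
          linarith
        have h3 := mul_le_mul hmq' hB.le (abs_nonneg _) (by linarith)
        have h4 := mul_le_mul_of_nonneg_left hm.le (by linarith : (0 : ℝ) ≤ q)
        linarith
      have h2 : (q : ℤ) * a - (m : ℤ) * b = 0 := Int.abs_lt_one_iff.1 (by exact_mod_cast h1)
      rw [h2, Int.cast_zero, eq_comm, sub_eq_zero] at e
      have h3 := congrArg abs e
      rw [abs_mul, abs_mul, Nat.abs_cast, Nat.abs_cast] at h3
      have h4 : |(m : ℝ) * α - a| ≤ |(q : ℝ) * α - b| := by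
        refine le_of_mul_le_mul_left ?_ (by linarith : (0 : ℝ) < m)
        rw [h3]
        exact mul_le_mul_of_nonneg_right hmq' (abs_nonneg _)
      refine le_trans (Real.exp_le_exp.2 ?_) ((ih m hmq hm1).trans h4)
      have : (m : ℝ) ^ 3 ≤ (q : ℝ) ^ 3 := pow_le_pow_left₀ (by linarith) hmq' 3
      nlinarith
  refine ⟨C + 12, fun q hq => (key q hq).trans ?_⟩
  have h1 := (rot_bounds (q * α)).1
  rw [← rot_pow] at h1
  linarith [abs_nonneg ((q : ℝ) * α - round ((q : ℝ) * α))]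

theorem small_cycles {V S : Set ℂ} {g : ℂ → ℂ} (hg : FT V g S) {z₀ : ℂ} (h0 : z₀ ∈ V)
    (hfix : g z₀ = z₀) {α : ℝ} (hα : Irrational α)
    (hmul : deriv g z₀ = exp (2 * Real.pi * I * α))
    (hL : ∀ C : ℝ, ∃ q : ℕ, 1 ≤ q ∧
      ‖exp (2 * Real.pi * I * α) ^ q - 1‖ < Real.exp (-(C * q ^ 3)))
    {U : Set ℂ} (hU : U ∈ 𝓝 z₀) :
    {c : Set ℂ | c ⊆ U ∧ ∃ x : ℂ, ∃ m : ℕ, 1 ≤ m ∧ g^[m] x = x ∧
      c = {y | ∃ k < m, g^[k] x = y}}.Infinite := by
  intro hfin
  set f : ℂ → ℂ := fun z => g (z + z₀) - z₀ with hf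
  have hS : (⋃₀ {c : Set ℂ | c ⊆ U ∧ ∃ x : ℂ, ∃ m : ℕ, 1 ≤ m ∧ g^[m] x = x ∧
      c = {y | ∃ k < m, g^[k] x = y}}).Finite := by
    refine hfin.sUnion ?_
    rintro c ⟨-, x, m, -, -, rfl⟩
    exact ((Set.finite_lt_nat m).image fun k => g^[k] x).subset fun y ⟨k, hk, h⟩ => ⟨k, hk, h⟩
  have hS' := (hS.sdiff (t := {z₀})).isClosed.isOpen_compl.mem_nhds (x := z₀) (fun h => h.2 rfl)
  obtain ⟨ρ, hρ, hloc⟩ := Metric.mem_nhds_iff.1 (Filter.inter_mem hS' hU)
  have hap : Aper f := by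
    refine ⟨ρ, hρ, fun z hz m hm hi he => ?_⟩
    have key : ∀ i, g^[i] (z + z₀) = f^[i] z + z₀ := by
      intro i
      induction i with
      | zero => rfl
      | succ i ih =>
        rw [Function.iterate_succ_apply', Function.iterate_succ_apply', ih, hf]
        simp
    have hin : ∀ i, f^[i] z + z₀ ∈ ball z₀ ρ := fun i => by simpa using hi i
    refine (hloc (hin 0)).1 ⟨⟨{y | ∃ k < m, g^[k] (z + z₀) = y},
      ⟨?_, z + z₀, m, hm, ?_, rfl⟩, 0, hm, rfl⟩, by simpa using hz⟩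
    · rintro y ⟨k, -, rfl⟩
      rw [key]
      exact (hloc (hin k)).2
    · rw [key, he]
  have hlam : ‖exp (2 * Real.pi * I * α)‖ = 1 := by
    rw [show 2 * (Real.pi : ℂ) * I * α = ((2 * Real.pi * α : ℝ) : ℂ) * I by push_cast; ring]
    exact Complex.norm_exp_ofReal_mul_I _
  obtain ⟨C, hC⟩ := all_q hα ((hg.shift z₀).bound (by simpa using h0) (by simp [hfix]) hlam
    (by rw [deriv_sub_const, deriv_comp_add_const, zero_add, hmul]) hap)
  obtain ⟨q, hq, hlt⟩ := hL C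
  exact absurd (hC q hq) (not_le.2 hlt)

/-- A linearizable irrationally indifferent fixed point has a neighbourhood with one cycle. -/
theorem one_cycle {g φ : ℂ → ℂ} {z₀ : ℂ} {α : ℝ} (hα : Irrational α) (h1 : AnalyticAt ℂ φ z₀)
    (h2 : φ z₀ = 0) (h3 : deriv φ z₀ ≠ 0)
    (h4 : ∀ᶠ w in 𝓝 z₀, φ (g w) = exp (2 * Real.pi * I * α) * φ w) :
    ∃ U ∈ 𝓝 z₀, ∀ x : ℂ, ∀ m : ℕ, 1 ≤ m → g^[m] x = x → (∀ k < m, g^[k] x ∈ U) → x = z₀ := by
  have hl := h1.hasStrictDerivAt.eventually_left_inverse h3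
  have h5 := hl.self_of_nhds
  refine ⟨_, hl.and h4, fun x m hm hx hk => ?_⟩
  have key : ∀ k ≤ m, φ (g^[k] x) = exp (2 * Real.pi * I * α) ^ k * φ x := by
    intro k
    induction k with
    | zero => simp
    | succ k ih =>
      intro hkm
      rw [Function.iterate_succ_apply', (hk k (by omega)).2, ih (by omega), pow_succ]
      ring
  have h6 := key m le_rfl
  rw [hx] at h6
  have h7 : φ x = 0 :=
    (mul_eq_zero.1 (by linear_combination -h6 :
      (exp (2 * Real.pi * I * α) ^ m - 1) * φ x = 0)).resolve_left (rot_ne hα hm)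
  have h8 := (hk 0 hm).1
  rw [Function.iterate_zero_apply, h7] at h8
  rw [h2] at h5
  exact h8.symm.trans h5

end Pool.Agent.FS.CubicSmall
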